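import Pool.Agent.Helper77.OC.St
import Pool.Agent.Helper64.OF.Main2
import Pool.Agent.Helper64.OF.M_PP
import Pool.Agent.Helper64.OF.M_Rul
import Pool.Agent.Helper74.OF.M_TR
import Pool.Agent.Helper74.OF.M_COMB
import Pool.Agent.Helper82.OF.M_GEO
import Pool.Agent.Helper82.OF.M_QV
import Pool.Agent.Helper82.OF.M_QF
import Pool.Agent.Helper35.PM.M_POT

/-!
# Project OC, module FEW: graphs with at most two odd faces are near-bipartite (hand-in FewOddFaces)
-/

set_option autoImplicit false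

namespace Pool.Agent.Helper77.OC.FEW

open Pool.Agent.Helper35.PM Pool.Agent.Helper77.HY Pool.Agent.Helper77.OC

theorem aux (W : Type) [Fintype W] (H : SimpleGraph W) (R : Rot H) (hTF : TF H)
    (hconn : H.Connected) (k : ℕ) (hk : k ≤ 1) (f g : Fin k → H.Dart)
    (hodd : ∀ d, Odd (Function.minimalPeriod R.φ d) ↔
      ∃ t, R.φ.SameCycle (f t) d ∨ R.φ.SameCycle (g t) d)
    (hfg : ∀ s t, ¬ R.φ.SameCycle (f s) (g t)) : NB H := by
  classical
  have hst : ∀ s t : Fin k, s = t := by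
    intro s t
    apply Fin.ext
    omega
  obtain ⟨L, p, h1, h2, h3⟩ := Pool.Agent.Helper82.OF.hGEO W H k (fun t => (f t).fst)
    (fun t => (g t).fst) hconn hTF (fun s t h => absurd (hst s t) h)
  exact Pool.Agent.Helper64.OF.nb_of_paths Pool.Agent.Helper35.PM.M_POT.main
      Pool.Agent.Helper64.OF.hPP Pool.Agent.Helper82.OF.hQV Pool.Agent.Helper82.OF.hQF
      Pool.Agent.Helper64.OF.hRul
      (Pool.Agent.Helper64.OF.hDSC2 Pool.Agent.Helper74.OF.TR.hTR Pool.Agent.Helper64.OF.hRul)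
      Pool.Agent.Helper74.OF.hCOMB W H R k f g hTF hodd hfg (fun s t _ => hst s t)
      (fun s t _ => hst s t) L p h1 h2 h3 (by
        intro t i w y _ _ _ _ _ _ _ s
        rw [hst s t])

theorem main : StFew := by
  intro W _ H R hTF hconn h
  rcases h with h | ⟨f, g, hfg, h⟩
  · refine aux W H R hTF hconn 0 (by omega) Fin.elim0 Fin.elim0 ?_ (fun s => s.elim0)
    intro d
    exact ⟨fun h1 => absurd h1 (h d), fun ⟨t, _⟩ => t.elim0⟩
  · refine aux W H R hTF hconn 1 (by omega) (fun _ => f) (fun _ => g) ?_ (fun _ _ => hfg)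
    intro d
    rw [h d]
    exact ⟨fun h1 => ⟨0, h1⟩, fun ⟨_, h1⟩ => h1⟩

end Pool.Agent.Helper77.OC.FEW
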