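import Pool.Agent.Helper77.OC.St
import Pool.Agent.Helper77.HY.Main
import Pool.Agent.Helper77.OC.FEW
import Pool.Agent.Helper36.OC.EXT
import Pool.Agent.Helper36.OC.SM
import Pool.Agent.Helper40.OC.MW
import Pool.Agent.Helper15.OC.FACE
import Pool.Agent.Helper15.OC.B
import Pool.Agent.Helper79.OC.BASE
import Pool.Agent.Helper57.OC.FR
import Pool.Agent.Helper45.OC.M_C1
import Pool.Agent.Helper2.OC.C
import Pool.Agent.Helper2.OC.C2
import Pool.Agent.Helper74.OC.C3
import Pool.Agent.Helper98.OC.FIN

/-!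
# MP_7a9ddc_co, project OC: assembly
-/

set_option autoImplicit false

namespace Pool.Agent.Helper77.OC

open Pool.Agent.Helper77.HY

theorem stExt : StExt := Pool.Agent.Helper36.OC.EXT.main stLc stCnt
theorem stMw : StMw := Pool.Agent.Helper40.OC.MW.main
theorem stFace : StFace := Pool.Agent.Helper15.OC.FACE.main Pool.Agent.Helper35.PM.stEul stCnt
theorem stFew : StFew := Pool.Agent.Helper77.OC.FEW.main
theorem stBase : StBase :=
  Pool.Agent.Helper79.OC.BASE.main stFace stFew stSub stEub stCnt Pool.Agent.Helper35.PM.stFin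
theorem stFr : StFr := Pool.Agent.Helper57.OC.FR.main
theorem stB : StB := Pool.Agent.Helper15.OC.B.main stExt stFr stCnt
theorem stC1 : StC1 := Pool.Agent.Helper45.OC.hC1 stExt
theorem stC2 : StC2 := Pool.Agent.Helper2.OC.C2.main stFr
theorem stC3 : StC3 := Pool.Agent.Helper74.OC.C3.main stExt
theorem stC : StC := Pool.Agent.Helper2.OC.C.main stC1 stC2 stC3
theorem stSm : StSm := Pool.Agent.Helper36.OC.SM.main stFr
theorem stFin : StFin := Pool.Agent.Helper98.OC.FIN.main stExt stMw stBase stFr stB stC stSm stCnt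

end Pool.Agent.Helper77.OC
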