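import Pool.Agent.Helper77.HY.St

/-!
# MP_7a9ddc_co, project OC (small odd cycle transversals): statements of the modules

THEOREM (OC). Let `G` be a triangle-free planar graph and `S` a set of vertices such that `G - S` is
bipartite. Suppose that `|S| ≤ 4`, or that `G[S]` is `{1,2}`-choosable and has at least `2 |S| - 6`
edges, or that `G[S]` is a forest with at least `2 |S| - 7` edges. Then `G` is `{1,2}`-choosable.

PROOF. For `S ⊆ U` let `df U = 2 |U| - 4 - e(U)`. Among all `W ⊇ S` with `df W` minimal choose one with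
`|W|` minimal, so `df W < df U` for `S ⊆ U ⊂ W`. Every `L`-colouring of `G[W]` extends to `G` (`StExt`:
orientation and kernels in the bipartite graph `G - W`). If `df W ≤ 1` then `G[W]` has at most two
odd faces, and is near-bipartite by the hand-in FewOddFaces. If `W = S` we are done. The remaining
cases `2 ≤ df W < df S ≤ 4` are the modules B and C: a colouring of `S` (or of a larger set `U`) is
chosen in which the vertices of `W \ S` lose less than one colour per edge.

All modules are independent: earlier statements may be used as hypotheses.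
-/

set_option autoImplicit false

namespace Pool.Agent.Helper77.OC

open Pool.Agent.Helper35.PM Pool.Agent.Helper77.HY

/-- the deficiency `2 |U| - 4 - e(U)` -/
noncomputable def df {V : Type} (G : SimpleGraph V) (U : Finset V) : ℤ :=
  2 * (U.card : ℤ) - 4 - (eN G U : ℤ)

/-- `c` is a proper colouring of `G[U]` from the lists `L` -/
def ColOn {V : Type} (G : SimpleGraph V) (U : Finset V) (L : V → Finset ℕ) (c : V → ℕ) : Prop :=
  (∀ v ∈ U, c v ∈ L v) ∧ ∀ u ∈ U, ∀ v ∈ U, G.Adj u v → c u ≠ c v

/-- `{1,2}`-assignments -/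
def OneTwo {V : Type} (L : V → Finset ℕ) (A : Finset ℕ) : Prop :=
  ∀ v, (L v ∩ A).card = 1 ∧ (L v \ A).card = 2

/-- the number of different colours of `L r` on neighbours of `r` in `U` -/
noncomputable def lost {V : Type} (G : SimpleGraph V) (U : Finset V) (L : V → Finset ℕ) (c : V → ℕ)
    (r : V) : ℕ :=
  {γ : ℕ | γ ∈ L r ∧ ∃ u ∈ U, G.Adj r u ∧ c u = γ}.ncard

/-! ### Module EXT (extension of colourings; 60-100 lines)

PROOF. From `StLc` and `StCnt (2)`. `R = W \ U`, `w r = lost G U L c r`, `L' r` = `L r` minus the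
lost colours, so `3 ≤ |L' r| + w r`. For `T ⊆ W \ U` apply the hypothesis to `U' = U ∪ T`:
`eN G (U ∪ T) = eN G U + eN G T + ∑ t ∈ T, dg G t U`, so
`eN G T + ∑ t ∈ T, lost t ≤ 2 |T|`. (Note `lost ≤ dg`.) -/
def StExt : Prop :=
  ∀ (V : Type) [Finite V] [DecidableEq V] (G : SimpleGraph V) (p : V → Bool) (L : V → Finset ℕ)
    (U W : Finset V) (c : V → ℕ), U ⊆ W →
    (∀ u ∈ W, u ∉ U → ∀ v ∈ W, v ∉ U → G.Adj u v → p u ≠ p v) →
    (∀ v, (L v).card = 3) → ColOn G U L c →
    (∀ U' : Finset V, U ⊆ U' → U' ⊆ W →
      df G U + ∑ r ∈ U' \ U, (lost G U L c r : ℤ) ≤ df G U' + ∑ r ∈ U' \ U, (dg G r U : ℤ)) →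
    ∃ c' : V → ℕ, (∀ u ∈ U, c' u = c u) ∧ ColOn G W L c'

/-! ### Module MW (the minimiser; 20-40 lines)

PROOF. Finitely many sets: choose `W` with `(df G W, |W|)` lexicographically minimal among the sets
containing `S`. -/
def StMw : Prop :=
  ∀ (V : Type) [Finite V] (G : SimpleGraph V) (S : Finset V), ∃ W : Finset V, S ⊆ W ∧
    (∀ U : Finset V, S ⊆ U → df G W ≤ df G U) ∧
    ∀ U : Finset V, S ⊆ U → U ⊂ W → df G W < df G U

/-! ### Module FACE (at most two odd faces; 100-160 lines)

PROOF. `H` is connected, triangle-free, with a rotation system `R`, at least four vertices and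
`2 n ≤ e + 5`. As in module EC of project HY every face has length at least four (length 1: loop;
length 2: both ends of the dart have degree one; length 3: triangle). With
`n - e + f = 2` (PM.stEul) the sum over the faces of (length minus four) is
`2 e - 4 f = 4 n - 8 - 2 e ≤ 2`. An odd face contributes at least one, so there are at most two of
them, and their number is even, because the sum of all lengths is `2 e`. The length of the face of the
dart `d` is `Function.minimalPeriod R.φ d`, the number of the darts `d'` with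
`R.φ.SameCycle d d'`. -/
def StFace : Prop :=
  ∀ (W : Type) [Fintype W] (H : SimpleGraph W) (R : Rot H), TF H → H.Connected →
    4 ≤ Fintype.card W → 2 * Fintype.card W ≤ eN H Finset.univ + 5 →
    (∀ d, ¬ Odd (Function.minimalPeriod R.φ d)) ∨
    ∃ f g : H.Dart, ¬ R.φ.SameCycle f g ∧
      ∀ d, Odd (Function.minimalPeriod R.φ d) ↔ R.φ.SameCycle f d ∨ R.φ.SameCycle g d

/-- Module FEW (done by helper77 from the files of the hand-in FewOddFaces) -/
def StFew : Prop :=
  ∀ (W : Type) [Fintype W] (H : SimpleGraph W) (R : Rot H), TF H → H.Connected →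
    ((∀ d, ¬ Odd (Function.minimalPeriod R.φ d)) ∨
    ∃ f g : H.Dart, ¬ R.φ.SameCycle f g ∧
      ∀ d, Odd (Function.minimalPeriod R.φ d) ↔ R.φ.SameCycle f d ∨ R.φ.SameCycle g d) → NB H

/-! ### Module BASE (deficiency at most one; 60-100 lines)

PROOF. From `StFace`, `StFew`, `StSub`, `StEub`, `StCnt (4)` of project HY and `PM.stFin`. The graph
`H = G.induce W` is planar and triangle-free with `2 |W| ≤ e(H) + 5`. If `|W| ≤ 3` then `H` is
a forest (`Forest H univ`: a set of at most three vertices without triangle contains a vertex with at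
most one neighbour in the set), so `NB H` with `I = ∅`. If `|W| ≥ 4` then `H` is connected by the
second part of `StEub`, and `NB H` by `StFace` and `StFew`. Now `PM.stFin` colours `H`. -/
def StBase : Prop :=
  ∀ (V : Type) [Finite V] (G : SimpleGraph V) (W : Finset V), Planar G → TF G → df G W ≤ 1 →
    ∀ (L : V → Finset ℕ) (A : Finset ℕ), OneTwo L A → ∃ c, ColOn G W L c

/-! ### Module FR (forests; 60-100 lines)

`(1)` a forest can be coloured from lists with at least two colours: as
`Pool.Agent.Helper35.PM.D_FIN.ext_col`. `(2)` the colour of one vertex can be prescribed: for finite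
`T ⊆ F` and `s`, induction on `|T|`: if `T` has a vertex `a ≠ s` with at most one neighbour in `T`,
colour `T \ {a}` first. Otherwise every vertex of `T` except `s` has at least two neighbours in `T`:
remove `s` first, `T \ {s}` contains a vertex `a` with at most one neighbour in `T \ {s}`, which has
exactly two neighbours in `T`, one of them `s`. Simplest way: choose a longest path (or use the
`Forest` property twice: the graph obtained from two copies of `G[T]` glued at `s` is a forest), or
use the statement: a forest on `T` with at least two vertices has at least two vertices with at most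
one neighbour in `T` (induction on `|T|` from the definition of `Forest`: remove a vertex `a` with at
most one neighbour `b`; `T \ {a}` has two such vertices if `|T| ≥ 3`, one of them is not `b`, and it
and `a` work). -/
def StFr : Prop :=
  (∀ (V : Type) (G : SimpleGraph V) (F : Finset V) (M : V → Finset ℕ), Forest G (F : Set V) →
    (∀ v ∈ F, 2 ≤ (M v).card) → ∃ c, ColOn G F M c) ∧
  ∀ (V : Type) (G : SimpleGraph V) (F : Finset V) (M : V → Finset ℕ) (s : V) (γ : ℕ),
    Forest G (F : Set V) → (∀ v ∈ F, 2 ≤ (M v).card) → s ∈ F → γ ∈ M s →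
    ∃ c, ColOn G F M c ∧ c s = γ

/-! ### Module B (one saved colour; 100-150 lines)

PROOF. From `StExt` (with `U = S`) and `StFr`. Write `M v = L v \ A` (two colours), `R = W \ S`. The
hypothesis of `StExt` holds for every colouring `c` of `G[S]` with `lost r + 1 ≤ dg r S` for some
`r ∈ R` (for `U' ≠ W` use `df G S ≤ df G U'`, for `U' = W` use the saved colour).
(1) There are an edge `s r`, `s ∈ S`, `r ∈ R`, and a colour `γ ∈ M s` with `γ ∉ L r`: colour the
forest `G[S]` from the lists `M` with `c s = γ` (`StFr (2)`); then `r` saves a colour at `s`.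
(2) Otherwise (`M s ⊆ L r`, so `M s = M r`, for every edge `s r`; not needed in the following) some
`r ∈ R` has two different neighbours `s, s' ∈ S`, which are not adjacent. NOTE: here the colours of
`A` in the lists `L s`, `L s'`, `L r` may be different! Let `a v` be the colour of `L v ∩ A`. Colour
`s` with `a s`, `s'` with `a s'`, and the rest of `S` from the lists `M` (`StFr (1)` for the forest
`G[S \ {s, s'}]`). Either `a s = a s'`, or one of `a s`, `a s'` is different from `a r`, hence not
in `L r` (as `L r ∩ A = {a r}`): in both cases `r` loses at most one colour at `s` and `s'` together.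
(3) Otherwise every vertex of `R` has at most one neighbour in `S`. Colour the `r ∈ R` with
`p r = true` with `a r`, `G[S]` from the lists `M`, and then the `r ∈ R` with `p r = false` from
`M r` avoiding the colour of the neighbour in `S`. (`A`-colours and `M`-colours are different.) -/
def StB : Prop :=
  ∀ (V : Type) [Finite V] [DecidableEq V] (G : SimpleGraph V) (p : V → Bool) (S W : Finset V),
    TF G → S ⊆ W → (∀ u ∈ W, u ∉ S → ∀ v ∈ W, v ∉ S → G.Adj u v → p u ≠ p v) →
    Forest G (S : Set V) → (∀ U : Finset V, S ⊆ U → U ⊂ W → df G S ≤ df G U) →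
    df G S ≤ df G W + 1 → ∀ (L : V → Finset ℕ) (A : Finset ℕ), OneTwo L A → ∃ c, ColOn G W L c

/-! ### Module C1 (four independent vertices, case without a sparse intermediate set; 80-120 lines)

PROOF. From `StExt` with `U = S` (so `df G S = 4`, as `S` has no edges): colour `s ∈ S` with the
colour `a s` of `L s ∩ A`. A vertex `r` loses at most one colour (only `a r`, the colour of
`L r ∩ A`, can be lost), and none if it has no neighbour in `S`. So it saves at least
`dg r S - 1`. `S ≠ U' ⊂ W`: `df U' ≥ 3`, and if `df U' = 3` some `r ∈ U' \ S` saves a colour by the last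
hypothesis. `U' = W`: the hypothesis on the sum of the `dg r S - 1` gives two saved colours. -/
def StC1 : Prop :=
  ∀ (V : Type) [Finite V] [DecidableEq V] (G : SimpleGraph V) (p : V → Bool) (S W : Finset V),
    S ⊆ W → (∀ u ∈ W, u ∉ S → ∀ v ∈ W, v ∉ S → G.Adj u v → p u ≠ p v) →
    S.card = 4 → (∀ u ∈ S, ∀ v ∈ S, ¬ G.Adj u v) → 2 ≤ df G W →
    (∀ U : Finset V, S ⊆ U → U ⊂ W → 3 ≤ df G U) →
    2 ≤ ∑ r ∈ W \ S, (dg G r S - 1) →
    (∀ U : Finset V, S ⊆ U → U ⊂ W → df G U = 3 → ∃ r ∈ U, r ∉ S ∧ 2 ≤ dg G r S) →
    ∀ (L : V → Finset ℕ) (A : Finset ℕ), OneTwo L A → ∃ c, ColOn G W L c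

/-! ### Module C2 (few common neighbours; 60-100 lines)

PROOF. If `∑ r ∈ W \ S, (dg r S - 1) ≤ 1` (natural subtraction) then at most one vertex `r0` of
`W \ S` has two neighbours in `S`, and it has exactly two of them. So `Forest G (S ∪ Y)` for
`Y = {r ∈ W \ S | p r = false}`: a nonempty subset `T` either contains a vertex of `Y` with at most one
neighbour in `T` (all neighbours in `T` are in `S`), or `T ∩ Y ⊆ {r0}`, and then a vertex of `T ∩ S`
(its neighbours in `T` are in `Y`) or `r0` itself works. Colour the `r ∈ W \ S` with `p r = true` with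
the colour of `L r ∩ A`, and the forest from `L v \ A` (`StFr (1)`). -/
def StC2 : Prop :=
  ∀ (V : Type) [Finite V] [DecidableEq V] (G : SimpleGraph V) (p : V → Bool) (S W : Finset V),
    S ⊆ W → (∀ u ∈ W, u ∉ S → ∀ v ∈ W, v ∉ S → G.Adj u v → p u ≠ p v) →
    (∀ u ∈ S, ∀ v ∈ S, ¬ G.Adj u v) → ∑ r ∈ W \ S, (dg G r S - 1) ≤ 1 →
    ∀ (L : V → Finset ℕ) (A : Finset ℕ), OneTwo L A → ∃ c, ColOn G W L c

/-! ### Module C3 (a sparse intermediate set; 100-150 lines)

PROOF. `U` is the intermediate set: every `r ∈ U \ S` has at most one neighbour in `S`; `y ∈ W \ U`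
has two different neighbours `s, s' ∈ S`. Choose `γ ∈ L s \ A`, `γ' ∈ L s' \ A` such that at most one
colour of `L y` is in `{γ, γ'}`: if `L s \ A` is not contained in `L y` take `γ ∉ L y`; likewise for `s'`;
otherwise `L s \ A = L y \ A = L s' \ A` (subsets of `L y \ A` with two elements) and take `γ = γ'`.
Colour `U`: `s` by `γ`, `s'` by `γ'`, every other `t ∈ S` by any colour of `L t \ A`, the `r ∈ U \ S` with
`p r = true` by the colour of `L r ∩ A`, the `r ∈ U \ S` with `p r = false` by a colour of `L r \ A`
different from the colour of the neighbour in `S` (if there is one). This is proper. Then `StExt` from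
`U` to `W`: the vertex `y` saves a colour; the hypotheses on `df` give the inequality
(`U' ≠ W`: `df U ≤ df U'`; `U' = W`: `df U ≤ df W + 1`). -/
def StC3 : Prop :=
  ∀ (V : Type) [Finite V] [DecidableEq V] (G : SimpleGraph V) (p : V → Bool) (S U W : Finset V),
    S ⊆ U → U ⊆ W → (∀ u ∈ W, u ∉ S → ∀ v ∈ W, v ∉ S → G.Adj u v → p u ≠ p v) →
    (∀ u ∈ S, ∀ v ∈ S, ¬ G.Adj u v) → (∀ r ∈ U, r ∉ S → dg G r S ≤ 1) →
    (∃ y ∈ W, y ∉ U ∧ 2 ≤ dg G y S) →
    (∀ U' : Finset V, U ⊆ U' → U' ⊂ W → df G U ≤ df G U') → df G U ≤ df G W + 1 →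
    ∀ (L : V → Finset ℕ) (A : Finset ℕ), OneTwo L A → ∃ c, ColOn G W L c

/-! ### Module C (four independent vertices; 40-60 lines)

PROOF. From `StC1`, `StC2`, `StC3`. If `∑ r ∈ W \ S, (dg r S - 1) ≤ 1`: `StC2`. If there is a `U` with
`S ⊆ U ⊂ W`, `df U = 3` such that no `r ∈ U \ S` has two neighbours in `S`: `StC3` (a vertex `y ∈ W \ S`
with two neighbours in `S` exists because the sum is at least two, and it is not in `U`).
Otherwise `StC1`. -/
def StC : Prop :=
  ∀ (V : Type) [Finite V] [DecidableEq V] (G : SimpleGraph V) (p : V → Bool) (S W : Finset V),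
    S ⊆ W → (∀ u ∈ W, u ∉ S → ∀ v ∈ W, v ∉ S → G.Adj u v → p u ≠ p v) →
    S.card = 4 → (∀ u ∈ S, ∀ v ∈ S, ¬ G.Adj u v) → df G W = 2 →
    (∀ U : Finset V, S ⊆ U → U ⊂ W → 3 ≤ df G U) →
    ∀ (L : V → Finset ℕ) (A : Finset ℕ), OneTwo L A → ∃ c, ColOn G W L c

/-! ### Module SM (at most four vertices; 60-120 lines)

PROOF. A triangle-free graph with at most four vertices which is not a forest is the 4-cycle. If `S`
does not induce a forest there is a nonempty `T ⊆ S` in which every vertex has two different
neighbours in `T`; without triangle `T` has four vertices `a, b, c, d` with edges `a b, b c, c d, d a`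
(let `b, d` be two neighbours of `a` in `T`; they are not adjacent, so a second neighbour of `b` in `T`
is a fourth vertex `c`, and `c` is also the second neighbour of `d`; then `T = S`), so
`eN G S ≥ 4` and `S \ {a}` is a forest: colour `a` with its colour of `A` and the path from `L v \ A`. -/
def StSm : Prop :=
  ∀ (V : Type) [Finite V] [DecidableEq V] (G : SimpleGraph V) (S : Finset V), TF G → S.card ≤ 4 →
    Forest G (S : Set V) ∨ (4 ≤ eN G S ∧
      ∀ (L : V → Finset ℕ) (A : Finset ℕ), OneTwo L A → ∃ c, ColOn G S L c)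

/-! ### Module FIN (assembly; 60-100 lines)

PROOF. `W` from `StMw`. It suffices to colour `G[W]`: then `StExt` with `U = W`, `W = univ` (for
`U' ⊇ W`: `df W ≤ df U'`). If `df W ≤ 1` use `StBase`. If `W = S`: `G[S]` can be coloured (forest: `StFr`;
`StSm`; hypothesis). Otherwise `2 ≤ df W < df S`.
* `df S ≤ 2` (second case of the hypothesis, or `4 ≤ eN G S` in `StSm`): impossible.
* `G[S]` forest, `df S ≤ 3` (third case, or `|S| ≤ 4` with `df S ≤ 3`): `StB`.
* `|S| ≤ 4`, forest, `df S ≥ 4`: then `|S| = 4`, `eN G S = 0`, `df S = 4`, `S` is independent; if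
  `df W = 3` use `StB`, if `df W = 2` use `StC`. -/
def StFin : Prop :=
  ∀ (V : Type) [Finite V] [DecidableEq V] (G : SimpleGraph V) (S : Finset V), Planar G → TF G →
    (G.induce ((S : Set V)ᶜ)).Colorable 2 →
    (S.card ≤ 4 ∨
      (2 * S.card ≤ eN G S + 6 ∧
        ∀ (L : V → Finset ℕ) (A : Finset ℕ), OneTwo L A → ∃ c, ColOn G S L c) ∨
      (2 * S.card ≤ eN G S + 7 ∧ Forest G (S : Set V))) →
    ∀ (L : V → Finset ℕ) (A : Finset ℕ), OneTwo L A → ∃ c : V → ℕ, (∀ v, c v ∈ L v) ∧
      ∀ u v, G.Adj u v → c u ≠ c v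

end Pool.Agent.Helper77.OC
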